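import Pool.Agent.helper15.DH.Spec
import Pool.Agent.helper93.ED.WG

/-! # Project dh, module PSM: the sum over the pairs -/

set_option autoImplicit false

open Complex MeasureTheory

namespace Pool.Agent.DH

open Pool.Agent.helper84.DM Pool.Agent.helper78.ED

/-- Cauchy-Schwarz over all pairs. -/
theorem PSM_cs (Z : Finset ℂ) (f : ℂ → ℂ → ℝ) :
    (∑ ρ ∈ Z, ∑ ρ' ∈ Z, f ρ ρ') ^ 2 ≤ (Z.card : ℝ) ^ 2 * ∑ ρ ∈ Z, ∑ ρ' ∈ Z, f ρ ρ' ^ 2 := by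
  rw [← Finset.sum_product' Z Z (fun ρ ρ' => f ρ ρ'),
    ← Finset.sum_product' Z Z (fun ρ ρ' => f ρ ρ' ^ 2)]
  have h := sq_sum_le_card_mul_sum_sq (s := Z ×ˢ Z) (f := fun q : ℂ × ℂ => f q.1 q.2)
  rw [Finset.card_product] at h
  push_cast at h
  rw [← sq] at h
  exact h

theorem PSM (hRSQ : RSQ_stmt) (hNEAR : NEAR_stmt) : PSM_stmt := by
  classical
  intro ε hε
  obtain ⟨C₁, T₁, hC₁, h1⟩ := hRSQ ε hε
  obtain ⟨C₂, T₂, hC₂, h2⟩ := hNEAR ε hε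
  obtain ⟨C₃, hC₃, h3⟩ := SS_triv
  refine ⟨C₂ * C₃ + C₁ ^ (1 / 2 : ℝ), max (max T₁ T₂) 1, by positivity, ?_⟩
  intro T hT σ M L hσ hM hM6 hL hL6 hTML Z hZ
  have hT1 : T₁ ≤ T := le_trans (le_trans (le_max_left _ _) (le_max_left _ _)) hT
  have hT2 : T₂ ≤ T := le_trans (le_trans (le_max_right _ _) (le_max_left _ _)) hT
  have hT3 : 1 ≤ T := le_trans (le_max_right _ _) hT
  have hT0 : 0 < T := by linarith
  have hMpos : 0 < M := by linarith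
  have hLpos : (0 : ℝ) < L := by exact_mod_cast hL
  have hz : ∀ ρ ∈ Z, ∀ ρ' ∈ Z, 0 ≤ ρ.re + ρ'.re - 2 * σ ∧ ρ.re + ρ'.re - 2 * σ ≤ 1 ∧
      |ρ.im - ρ'.im| ≤ T := by
    intro ρ hρ ρ' hρ'
    obtain ⟨a, b, c, e⟩ := hZ ρ hρ
    obtain ⟨a', b', c', e'⟩ := hZ ρ' hρ'
    have h5 : ρ.re < 1 := by
      by_contra hcon
      push Not at hcon
      exact riemannZeta_ne_zero_of_one_le_re hcon a
    have h6 : ρ'.re < 1 := by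
      by_contra hcon
      push Not at hcon
      exact riemannZeta_ne_zero_of_one_le_re hcon a'
    refine ⟨by linarith, by linarith, ?_⟩
    rw [abs_le]
    constructor <;> linarith
  have hQ0 : 0 ≤ QQ Z L := by
    unfold QQ
    exact Finset.sum_nonneg fun x _ => Finset.sum_nonneg fun y _ => sq_nonneg _
  -- the far pairs
  set f : ℂ → ℂ → ℝ := fun ρ ρ' => if Real.log T ≤ |ρ.im - ρ'.im| then
    ‖SS M (ρ.re + ρ'.re - 2 * σ) (ρ.im - ρ'.im)‖ else 0 with hf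
  have hR := h1 T hT1 Z (fun ρ hρ ρ' hρ' => (hz ρ hρ ρ' hρ').2.2) M L hM hM6 hL hL6 hTML
    (fun ρ ρ' => ρ.re + ρ'.re - 2 * σ) (fun ρ hρ ρ' hρ' => ⟨(hz ρ hρ ρ' hρ').1,
      (hz ρ hρ ρ' hρ').2.1⟩)
  have hf2 : ∀ ρ ρ' : ℂ, f ρ ρ' ^ 2 = (if Real.log T ≤ |ρ.im - ρ'.im| then
    ‖SS M (ρ.re + ρ'.re - 2 * σ) (ρ.im - ρ'.im)‖ ^ 2 else 0) := by
    intro ρ ρ'
    simp only [hf]
    split_ifs
    · rfl
    · norm_num
  have hG : ∑ ρ ∈ Z, ∑ ρ' ∈ Z, f ρ ρ' ^ 2 ≤ C₁ * T ^ ε * (M * QQ Z L / L) := by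
    simp only [hf2]
    have e : C₁ * T ^ ε * (M * QQ Z L / L) = (C₁ * T ^ ε * M * QQ Z L) / L := by ring
    rw [e, le_div_iff₀ hLpos, mul_comm]
    exact hR
  set R : ℝ := (Z.card : ℝ) with hRdef
  have hR0 : 0 ≤ R := Nat.cast_nonneg _
  set B : ℝ := M * QQ Z L / L with hB
  have hB0 : 0 ≤ B := by positivity
  have hfar : ∑ ρ ∈ Z, ∑ ρ' ∈ Z, f ρ ρ' ≤ R * (C₁ ^ (1 / 2 : ℝ) * T ^ ε * B ^ (1 / 2 : ℝ)) := by
    refine le_of_pow_le_pow_left₀ (n := 2) (by norm_num) (by positivity) ?_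
    refine le_trans (PSM_cs Z f) ?_
    have e1 : (C₁ ^ (1 / 2 : ℝ)) ^ 2 = C₁ := by
      rw [← Real.rpow_natCast, ← Real.rpow_mul hC₁.le]; norm_num
    have e2 : (B ^ (1 / 2 : ℝ)) ^ 2 = B := by
      rw [← Real.rpow_natCast, ← Real.rpow_mul hB0]; norm_num
    have e3 : 1 ≤ T ^ ε := Real.one_le_rpow hT3 hε.le
    calc R ^ 2 * ∑ ρ ∈ Z, ∑ ρ' ∈ Z, f ρ ρ' ^ 2
        ≤ R ^ 2 * (C₁ * T ^ ε * B) := mul_le_mul_of_nonneg_left hG (by positivity)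
      _ ≤ R ^ 2 * (C₁ * (T ^ ε) ^ 2 * B) := by
          apply mul_le_mul_of_nonneg_left _ (by positivity)
          apply mul_le_mul_of_nonneg_right _ hB0
          apply mul_le_mul_of_nonneg_left _ hC₁.le
          nlinarith
      _ = (R * (C₁ ^ (1 / 2 : ℝ) * T ^ ε * B ^ (1 / 2 : ℝ))) ^ 2 := by
          rw [mul_pow, mul_pow, mul_pow, e1, e2]
  -- the near pairs
  have hnear := h2 T hT2 σ hσ Z hZ
  have hpt : ∀ ρ ∈ Z, ∀ ρ' ∈ Z, ‖SS M (ρ.re + ρ'.re - 2 * σ) (ρ.im - ρ'.im)‖ ≤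
      C₃ * M * (if |ρ.im - ρ'.im| < Real.log T then (1 : ℝ) else 0) + f ρ ρ' := by
    intro ρ hρ ρ' hρ'
    obtain ⟨a, b, c⟩ := hz ρ hρ ρ' hρ'
    simp only [hf]
    by_cases hlt : |ρ.im - ρ'.im| < Real.log T
    · rw [if_pos hlt, if_neg (not_le.mpr hlt)]
      have := h3 M (ρ.re + ρ'.re - 2 * σ) (ρ.im - ρ'.im) hM a
      linarith
    · rw [if_neg hlt, if_pos (not_lt.mp hlt)]
      linarith
  calc ∑ ρ ∈ Z, ∑ ρ' ∈ Z, ‖SS M (ρ.re + ρ'.re - 2 * σ) (ρ.im - ρ'.im)‖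
      ≤ ∑ ρ ∈ Z, ∑ ρ' ∈ Z, (C₃ * M * (if |ρ.im - ρ'.im| < Real.log T then (1 : ℝ) else 0) +
        f ρ ρ') :=
        Finset.sum_le_sum (fun ρ hρ => Finset.sum_le_sum (fun ρ' hρ' => hpt ρ hρ ρ' hρ'))
    _ = C₃ * M * ∑ ρ ∈ Z, ∑ ρ' ∈ Z, (if |ρ.im - ρ'.im| < Real.log T then (1 : ℝ) else 0) +
        ∑ ρ ∈ Z, ∑ ρ' ∈ Z, f ρ ρ' := by
        simp only [Finset.sum_add_distrib, Finset.mul_sum]
    _ ≤ C₃ * M * (C₂ * T ^ ε * R) + R * (C₁ ^ (1 / 2 : ℝ) * T ^ ε * B ^ (1 / 2 : ℝ)) :=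
        add_le_add (mul_le_mul_of_nonneg_left hnear (by positivity)) hfar
    _ ≤ (C₂ * C₃ + C₁ ^ (1 / 2 : ℝ)) * T ^ ε * (R * M + R * B ^ (1 / 2 : ℝ)) := by
        have q1 : 0 ≤ C₂ * C₃ * T ^ ε * (R * B ^ (1 / 2 : ℝ)) := by positivity
        have q2 : 0 ≤ C₁ ^ (1 / 2 : ℝ) * T ^ ε * (R * M) := by positivity
        nlinarith [q1, q2]

end Pool.Agent.DH
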